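import Pool.Agent.R90.GamesBase

set_option autoImplicit false

namespace Pool.Agent.Results.MP_0d0d23_co.AllLengths

open Pool.Agent.R90.Games

/-- **Q1 has an affirmative answer, also for `r = 3, 4`.** For every `r ≥ 3` and every `m ≥ 3` there
is a complete simple game with exactly `r` shift-minimal winning types that is `m`-invariant trade
robust but not `(m + 1)`-invariant trade robust (it is even `m`-trade robust). -/
theorem result (r m : ℕ) (hr : 3 ≤ r) (hm : 3 ≤ m) :
    ∃ (N : Type) (_ : Fintype N) (_ : DecidableEq N) (G : SimpleGame N),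
      Complete G ∧ numShiftMin G = r ∧ TradeRobust G m ∧ InvTradeRobust G m ∧
        ¬ InvTradeRobust G (m + 1) := by
  obtain ⟨s, rfl⟩ := Nat.exists_eq_add_of_le hr
  obtain ⟨d, rfl⟩ := Nat.exists_eq_add_of_le hm
  obtain ⟨N, i1, i2, G, h1, _, h3, h4, _, h6⟩ := exists_game_r (c := d + 2) (by omega) s
  have e : 3 + d = d + 2 + 1 := by ring
  rw [e]
  exact ⟨N, i1, i2, G, h1, h3, h4, h4.inv, h6⟩

end Pool.Agent.Results.MP_0d0d23_co.AllLengths
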